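import Pool.Agent.Lib.helper9.MixE
import Pool.Agent.Lib.helper9.PSEx
import Pool.Agent.Lib.helper10.NPGraphL
import Pool.Agent.Lib.helper10.NPPred

namespace Pool.Agent.Results.MP_8006ab_lc.PSPACE

open Pool.Agent.Cx Pool.Agent.Mix Polynomial Relation

/-- the `k`-colouring graph: colourings are adjacent when they differ at exactly one vertex -/
def colGraph {W : Type} (G : SimpleGraph W) (k : ℕ) : SimpleGraph (G.Coloring (Fin k)) :=
  SimpleGraph.fromRel fun α β => ∃! v, α v ≠ β v

/-- `M` is the adjacency matrix of a `k`-mixing graph -/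
def Mixing (k : ℕ) (M : List (List Bool)) : Prop :=
  IsGraph M ∧ (colGraph (graphOf M) k).Preconnected

lemma bridge {W T : Type} [DecidableEq T] [Inhabited T] {G : SimpleGraph W} {k : ℕ} {ι : W → T}
    (hι : ι.Injective) {V : Finset T} (hV : ∀ x, x ∈ V ↔ ∃ w, ι w = x) {A : T → T → Prop}
    (hA : ∀ a b, G.Adj a b ↔ A (ι a) (ι b) ∨ A (ι b) (ι a)) : (colGraph G k).Preconnected ↔
      ∀ f g, Pr k V A f → Pr k V A g → Rc k V A f g := by
  have mk : ∀ f, Pr k V A f → ∃ α : G.Coloring (Fin k), ∀ w, (α w : ℕ) = f (ι w) := fun f hf =>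
    ⟨.mk (fun w => ⟨f (ι w), hf.1 _ ((hV _).2 ⟨w, rfl⟩)⟩) fun h e => hf.ne ((hV _).2 ⟨_, rfl⟩)
      ((hV _).2 ⟨_, rfl⟩) ((hA _ _).1 h) (congrArg Fin.val e), fun _ => rfl⟩
  have pr : ∀ (α : G.Coloring (Fin k)) f, (∀ w, (α w : ℕ) = f (ι w)) → Pr k V A f := by
    simp only [Pr, hV]
    refine fun α f h => ⟨?_, ?_⟩
    · rintro _ ⟨w, rfl⟩; exact h w ▸ (α w).2
    · rintro _ ⟨a, rfl⟩ _ ⟨b, rfl⟩ e
      rw [← h, ← h]
      exact fun e' => α.valid ((hA a b).2 (Or.inl e)) (Fin.ext e')
  have ex : ∀ α : G.Coloring (Fin k), ∃ f : T → ℕ, ∀ w, (α w : ℕ) = f (ι w) := fun α =>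
    ⟨Function.extend ι (fun w => α w) 0, fun w => by rw [hι.extend_apply]⟩
  constructor
  · intro h f g hf hg
    obtain ⟨α, a⟩ := mk f hf
    obtain ⟨β, b⟩ := mk g hg
    have := (SimpleGraph.reachable_iff_reflTransGen _ _).1 (h α β)
    induction this generalizing g with
    | refl =>
      refine .single ⟨hg, default, fun x hx _ => ?_⟩
      obtain ⟨w, rfl⟩ := (hV x).1 hx
      rw [← a, b]
    | @tail γ β _ e ih =>
      obtain ⟨g', c⟩ := ex γ
      obtain ⟨u, hu⟩ : ∃ u, ∀ v, γ v ≠ β v → v = u := by
        rcases e.2 with ⟨u, -, e⟩ | ⟨u, -, e⟩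
        exacts [⟨u, e⟩, ⟨u, fun v h => e v h.symm⟩]
      refine (ih g' (pr _ _ c) c).tail ⟨hg, ι u, fun x hx h => ?_⟩
      obtain ⟨w, rfl⟩ := (hV x).1 hx
      rw [← c, ← b]
      by_contra e
      exact h (by rw [hu w fun e' => e (by rw [e'])])
  · intro h α β
    obtain ⟨f, a⟩ := ex α
    obtain ⟨g, b⟩ := ex β
    have := h f g (pr _ _ a) (pr _ _ b)
    induction this generalizing β with
    | refl => rw [show α = β from DFunLike.ext _ _ fun w => Fin.ext (by rw [a, b])]
    | @tail g' g r e ih =>
      obtain ⟨γ, c⟩ := mk g' (Rc.pr r (pr _ _ a))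
      refine (ih γ c).trans ?_
      by_cases e' : γ = β
      · rw [e']
      obtain ⟨v, hv⟩ := DFunLike.ne_iff.1 e'
      obtain ⟨u, e⟩ := e.2
      have : ∀ w, γ w ≠ β w → ι w = u := fun w h => by
        by_contra h'
        exact h (Fin.ext (by rw [c, b, e _ ((hV _).2 ⟨w, rfl⟩) h']))
      exact SimpleGraph.Adj.reachable ⟨e', Or.inl ⟨v, hv, fun w h => hι (by rw [this w h, this v hv])⟩⟩

def prB (k : ℕ) (M : List (List Bool)) (l : List ℕ) : Bool :=
  l.length == M.length && l.all (fun c => decide (c < k)) && (List.range M.length).all fun i =>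
    (List.range M.length).all fun j => !(M.getD i []).getD j false || l.getD i 0 != l.getD j 0

lemma ps (k : ℕ) : PS (Mixing k) := by
  let R : List (List Bool) → List ℕ → List ℕ → Bool := fun M l l' => prB k M l' &&
    (List.range (M.length + 1)).any fun u => (List.range M.length).all fun x =>
      x == u || l.getD x 0 == l'.getD x 0
  have sz : ∀ M l, prB k M l = true → size l ≤ size M * (2 * k + 2) + 1 := fun M l h => by
    simp only [prB, Bool.and_eq_true, beq_iff_eq, List.all_eq_true, decide_eq_true_eq] at h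
    refine (size_list_le l (2 * k + 1) fun c hc => by have := h.1.2 c hc; simp; omega).trans ?_
    have := length_lt_size M
    rw [h.1.1]
    gcongr
  have h1 := PS.reachF (α := List (List Bool) × List ℕ × List ℕ) (s := fun a => a.2.1)
    (R := fun a => R a.1) (T := fun a v => v == a.2.2) (by fun_prop)
    (by simp only [R, prB]; fun_prop) (by fun_prop) (Polynomial.X * C (2 * k + 3) + 1)
    (fun a u => u = a.2.1 ∨ prB k a.1 u = true) (fun _ => Or.inl rfl)
    (fun a u v _ h => Or.inr (Bool.and_eq_true_iff.1 h).1) (by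
      rintro ⟨M, l, l'⟩ u (rfl | h)
      · simp only [eval_add, eval_mul, eval_X, eval_C, size_pair]; nlinarith
      · have := sz _ _ h
        simp only [eval_add, eval_mul, eval_X, eval_C, size_pair, eval_one] at *; nlinarith)
  have h2 := (PS.ex (P := fun M (z : List ℕ × List ℕ) => (prB k M z.1 && prB k M z.2) = true ∧
    ¬ ∃ v, ReflTransGen (fun u v => R M u v = true) z.1 v ∧ (v == z.2) = true)
    (h1.not.and (by unfold prB; fun_prop)) (Polynomial.X * C (4 * k + 4) + C 3) (by
      rintro M ⟨l, l'⟩ ⟨h, -⟩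
      have := sz _ _ (Bool.and_eq_true_iff.1 h).1
      have := sz _ _ (Bool.and_eq_true_iff.1 h).2
      simp only [eval_add, eval_mul, eval_X, eval_C, size_pair]; nlinarith)).not.and
    (f := fun M => (M.all fun r => r.length == M.length) && (List.range M.length).all fun i =>
      !(M.getD i []).getD i false && (List.range M.length).all fun j =>
        (M.getD i []).getD j false == (M.getD j []).getD i false) (by fun_prop)
  refine h2.red PT.id fun M => ?_
  have lt : (∀ r ∈ M, r.length = M.length) → ∀ i j, Entry M i j → i < M.length ∧ j < M.length := by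
    intro h i j e
    have hi : i < M.length := by
      by_contra h; rw [Entry, List.getD_eq_default _ _ (not_lt.1 h)] at e; simp at e
    refine ⟨hi, ?_⟩
    by_contra h'
    rw [Entry, List.getD_eq_getElem _ _ hi, List.getD_eq_default _ _
      (by rw [h _ (List.getElem_mem hi)]; omega)] at e
    simp at e
  have gr : IsGraph M ↔ ((M.all fun r => r.length == M.length) && (List.range M.length).all fun i =>
      !(M.getD i []).getD i false && (List.range M.length).all fun j =>
        (M.getD i []).getD j false == (M.getD j []).getD i false) = true := by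
    simp only [IsGraph, Bool.and_eq_true, List.all_eq_true, beq_iff_eq, List.mem_range,
      Bool.not_eq_true', ← Bool.not_eq_true]
    refine and_congr_right fun h => ⟨fun ⟨a, b⟩ i _ => ⟨a i, fun j _ => Bool.eq_iff_iff.2
      ⟨b i j, b j i⟩⟩, fun a => ⟨fun i e => (a i (lt h _ _ e).1).1 e, fun i j e =>
        ((a i (lt h _ _ e).1).2 j (lt h _ _ e).2).symm.trans e⟩⟩
  rw [← gr]
  refine and_congr_right fun hM => ?_
  rw [bridge (ι := Fin.val) Fin.val_injective (V := Finset.range M.length) (A := Entry M)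
    (fun x => by simp [Fin.exists_iff]) fun a b => by
      simp only [graphOf, SimpleGraph.fromRel_adj, and_iff_right_iff_imp]
      rintro (h | h) rfl <;> exact hM.2.1 _ h]
  have p1 : ∀ l, prB k M l = true ↔ l.length = M.length ∧
      Pr k (Finset.range M.length) (Entry M) fun x => l.getD x 0 := fun l => by
    simp only [prB, Pr, Bool.and_eq_true, beq_iff_eq, List.all_eq_true, decide_eq_true_eq,
      List.mem_range, Finset.mem_range, and_assoc, Bool.or_eq_true, bne_iff_ne, Bool.not_eq_true',
      ← Bool.not_eq_true, ← imp_iff_not_or, Entry]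
    refine and_congr_right fun h => and_congr_left fun _ => ⟨fun a x hx => ?_, fun a c hc => ?_⟩
    · rw [List.getD_eq_getElem _ _ (h ▸ hx)]; exact a _ (List.getElem_mem _)
    · obtain ⟨i, hi, rfl⟩ := List.getElem_of_mem hc
      rw [← List.getD_eq_getElem _ 0 hi]; exact a i (h ▸ hi)
  have p2 : ∀ f : ℕ → ℕ, ∀ x < M.length, ((List.range M.length).map f).getD x 0 = f x :=
    fun f x hx => by simp [List.getD_eq_getElem?_getD, hx]
  have p3 : ∀ f, Pr k (Finset.range M.length) (Entry M) f →
      prB k M ((List.range M.length).map f) = true := fun f h =>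
    (p1 _).2 ⟨by simp, h.congr fun x hx => (p2 f x (Finset.mem_range.1 hx)).symm⟩
  simp only [Bool.and_eq_true, beq_iff_eq, exists_eq_right, not_exists, not_and, not_not,
    Prod.forall, and_imp]
  constructor
  · intro h l l' a b
    have := ReflTransGen.lift (r := Stp k (Finset.range M.length) (Entry M))
      (p := fun u v => R M u v = true) (fun f => (List.range M.length).map f) (fun f g ⟨c, u, d⟩ => by
        simp only [Function.onFun, R, Bool.and_eq_true, p3 g c, List.any_eq_true, List.all_eq_true,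
          List.mem_range, Bool.or_eq_true, beq_iff_eq, true_and]
        refine ⟨min u M.length, by omega, fun x hx => or_iff_not_imp_left.2 fun e => ?_⟩
        rw [p2 _ _ hx, p2 _ _ hx, d x (Finset.mem_range.2 hx) (by omega)]) _ _
      (h _ _ ((p1 l).1 a).2 ((p1 l').1 b).2)
    have e : ∀ l, prB k M l = true → (List.range M.length).map (fun x => l.getD x 0) = l :=
      fun l h => List.ext_getElem (by simp [((p1 l).1 h).1]) fun i _ h => by simp [h]
    simpa only [Function.onFun, e l a, e l' b] using this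
  · intro h f g a b
    have := ReflTransGen.lift (p := Stp k (Finset.range M.length) (Entry M))
      (r := fun u v => R M u v = true) (fun l x => l.getD x 0) (fun l l' c => by
        simp only [R, Bool.and_eq_true, List.any_eq_true, List.all_eq_true, List.mem_range,
          Bool.or_eq_true, beq_iff_eq] at c
        obtain ⟨c, u, -, d⟩ := c
        exact ⟨((p1 _).1 c).2, u, fun x hx e => (d x (Finset.mem_range.1 hx)).resolve_left e⟩) _ _
      (h _ _ (p3 f a) (p3 g b))
    exact .head ⟨((p1 _).1 (p3 f a)).2, 0, fun x hx _ => (p2 f x (Finset.mem_range.1 hx)).symm⟩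
      (.tail this ⟨b, 0, fun x hx _ => p2 g x (Finset.mem_range.1 hx)⟩)

open Classical in
noncomputable def vs (k : ℕ) (E : CI) : List T4 :=
  (List.range 5 ×ˢ List.range (17 + k + size E) ×ˢ List.range 5 ×ˢ List.range 3).filter
    fun x => decide (Vd k E x)

lemma hard {k : ℕ} (hk : 4 ≤ k) : HardPS (Mixing k) := by
  classical
  refine hardPS_cs.red (r := fun E => gmat (vs k E) fun x y => decide (Ed k E x y))
    (PT.gmat (PT.filter (PP.decide (by unfold Vd Mix.sq en; fun_prop)) (by fun_prop))
      (PP.decide (by unfold Ed Mix.sq en; fun_prop))) fun E => ?_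
  have nd : (vs k E).Nodup := (List.nodup_range.product (List.nodup_range.product
    (List.nodup_range.product List.nodup_range))).filter _
  have hV : ∀ x, x ∈ (vs k E).toFinset ↔ Vd k E x := fun x => by
    simp only [vs, List.mem_toFinset, List.mem_filter, decide_eq_true_eq, and_iff_right_iff_imp]
    have := length_lt_size E
    rintro (⟨i, hi, rfl⟩ | ⟨i, hi, rfl⟩ | ⟨i, hi, rfl⟩ | ⟨i, hi, j, hj, rfl | ⟨c, hc, -, -, rfl⟩⟩) <;>
      simp <;> omega
  rw [mix_iff hk hV, Mixing, and_iff_right (isGraph_gmat _ _)]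
  refine (bridge (ι := fun w => (gmatIso _ _ nd w).1)
    (Subtype.val_injective.comp (gmatIso _ _ nd).injective) (fun x => ⟨fun h =>
      ⟨(gmatIso _ _ nd).symm ⟨x, List.mem_toFinset.1 h⟩, by simp⟩, ?_⟩) fun a b => ?_).symm
  · rintro ⟨w, rfl⟩; exact List.mem_toFinset.2 (gmatIso _ _ nd w).2
  · rw [← (gmatIso _ _ nd).map_rel_iff, listGraph_adj]
    simp only [decide_eq_true_eq, and_iff_right_iff_imp]
    intro h e
    exact (psiP hk hV).1.ne (List.mem_toFinset.2 (gmatIso _ _ nd a).2)
      (List.mem_toFinset.2 (gmatIso _ _ nd b).2) h (by rw [e])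

theorem result : ∀ k ≥ 4, PSPACEComplete (Lang (Mixing k)) :=
  fun k hk => ⟨(ps k).inPSPACE, (hard hk).hard⟩

end Pool.Agent.Results.MP_8006ab_lc.PSPACE
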